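import Mathlib

/-!
# A convex body which passes through a door smaller than all its projections

The body is a long tetrahedron with the edges `(0, ±1/2, 0)` and `(±1/2, 0, 20)`; its horizontal
sections are the rectangles `s × (1 - s)`.  It is pushed down to the middle height, where the section
is a square of side `1/2`, turned there by a right angle, and pushed down again.  All the sections stay
in a hexagon of area less than `0.458`, while all the plane projections of the body have area at least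
`0.4993`.
-/

set_option autoImplicit false

namespace Pool.Agent.Results.MP_d572aa_gt.TetrahedronThroughSmallDoor

open MeasureTheory Matrix

/-- convex bodies in space -/
def IsBody (K : Set (Fin 3 → ℝ)) : Prop := IsCompact K ∧ Convex ℝ K ∧ (interior K).Nonempty

/-- doors in the plane `x₃ = 0`, in the coordinates `(x₁, x₂)` of that plane -/
def IsDoor (D : Set (ℝ × ℝ)) : Prop := IsCompact D ∧ Convex ℝ D ∧ (interior D).Nonempty

/-- the map `x ↦ A x + b` -/
def move (A : Matrix (Fin 3) (Fin 3) ℝ) (b x : Fin 3 → ℝ) : Fin 3 → ℝ := A *ᵥ x + b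

/-- `K` can be moved through the door `D` by a continuous path `x ↦ A t x + b t` of orientation
preserving rigid motions -/
def CanPass (K : Set (Fin 3 → ℝ)) (D : Set (ℝ × ℝ)) : Prop :=
  ∃ (A : ℝ → Matrix (Fin 3) (Fin 3) ℝ) (b : ℝ → Fin 3 → ℝ),
    Continuous A ∧ Continuous b ∧ (∀ t, A t ∈ specialOrthogonalGroup (Fin 3) ℝ) ∧
    (∀ x ∈ K, 0 < move (A 0) (b 0) x 2) ∧ (∀ x ∈ K, move (A 1) (b 1) x 2 < 0) ∧
    ∀ t ∈ Set.Icc (0 : ℝ) 1, ∀ x ∈ K, move (A t) (b t) x 2 = 0 →
      (move (A t) (b t) x 0, move (A t) (b t) x 1) ∈ D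

/-- the orthogonal projection of `K` onto the plane spanned by the orthonormal vectors `v`, `w`, in the
coordinates given by `v`, `w` -/
def proj (v w : Fin 3 → ℝ) (K : Set (Fin 3 → ℝ)) : Set (ℝ × ℝ) :=
  (fun x => (v ⬝ᵥ x, w ⬝ᵥ x)) '' K

/-! ### areas of quadrilaterals -/

/-- the open standard triangle -/
def T : Set (ℝ × ℝ) := regionBetween (fun _ => 0) (fun x => 1 - x) (Set.Ioo 0 1)

lemma vol_T : volume T = ENNReal.ofReal (1 / 2) := by
  unfold T
  rw [Measure.volume_eq_prod, volume_regionBetween_eq_integral]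
  · congr 1
    rw [← integral_Ioc_eq_integral_Ioo, ← intervalIntegral.integral_of_le (by norm_num)]
    simp only [Pi.sub_apply, sub_zero]
    rw [intervalIntegral.integral_sub (by simp) (by simp)]
    simp
    norm_num
  · exact (integrable_zero _ _ _).integrableOn
  · exact ((continuous_const.sub continuous_id).integrableOn_Icc).mono_set Set.Ioo_subset_Icc_self
  · exact measurableSet_Ioo
  · intro x hx
    simp only [Set.mem_Ioo] at hx
    linarith [hx.2]

/-- the linear map with columns `a`, `b` -/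
noncomputable def lin (a b : ℝ × ℝ) : (ℝ × ℝ) →ₗ[ℝ] (ℝ × ℝ) :=
  (LinearMap.fst ℝ ℝ ℝ).smulRight a + (LinearMap.snd ℝ ℝ ℝ).smulRight b

lemma det_lin (a b : ℝ × ℝ) : LinearMap.det (lin a b) = a.1 * b.2 - a.2 * b.1 := by
  rw [← LinearMap.det_toMatrix (Module.Basis.finTwoProd ℝ), Matrix.det_fin_two]
  simp [LinearMap.toMatrix_apply, lin]
  ring

lemma vol_tri (P a b : ℝ × ℝ) :
    volume ((fun p : ℝ × ℝ => P + lin a b p) '' T) =
      ENNReal.ofReal (|a.1 * b.2 - a.2 * b.1| / 2) := by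
  have h1 : (fun p : ℝ × ℝ => P + lin a b p) '' T = (fun p => P + p) '' (lin a b '' T) := by
    rw [Set.image_image]
  rw [h1, Set.image_add_left, measure_preimage_add, Measure.addHaar_image_linearMap, det_lin, vol_T,
    ← ENNReal.ofReal_mul (abs_nonneg _)]
  congr 1
  ring

lemma tri_sub {Q : Set (ℝ × ℝ)} (hQ : Convex ℝ Q) {P A B : ℝ × ℝ} (hP : P ∈ Q) (hA : A ∈ Q)
    (hB : B ∈ Q) : (fun p : ℝ × ℝ => P + lin (A - P) (B - P) p) '' T ⊆ Q := by
  rintro _ ⟨p, hp, rfl⟩
  obtain ⟨⟨h1, h2⟩, h3, h4⟩ := hp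
  have h5 : P + lin (A - P) (B - P) p = (1 - p.1 - p.2) • P + p.1 • A + p.2 • B := by
    ext
    · simp [lin]; ring
    · simp [lin]; ring
  show P + lin (A - P) (B - P) p ∈ Q
  rw [h5]
  have h6 : 0 < 1 - p.1 := by linarith
  have h7 : (1 - p.1 - p.2) • P + p.1 • A + p.2 • B ∈ convexHull ℝ {P, A, B} := by
    have := (convex_convexHull ℝ ({P, A, B} : Set (ℝ × ℝ)))
    have hP' : P ∈ convexHull ℝ ({P, A, B} : Set (ℝ × ℝ)) := subset_convexHull ℝ _ (by simp)
    have hA' : A ∈ convexHull ℝ ({P, A, B} : Set (ℝ × ℝ)) := subset_convexHull ℝ _ (by simp)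
    have hB' : B ∈ convexHull ℝ ({P, A, B} : Set (ℝ × ℝ)) := subset_convexHull ℝ _ (by simp)
    have h8 : ((1 - p.1 - p.2) / (1 - p.1)) • P + (p.2 / (1 - p.1)) • B ∈
        convexHull ℝ ({P, A, B} : Set (ℝ × ℝ)) :=
      this hP' hB' (div_nonneg (by linarith) h6.le) (div_nonneg h3.le h6.le) (by field_simp; ring)
    have h9 := this h8 hA' h6.le h1.le (by ring)
    convert h9 using 1
    rw [smul_add, smul_smul, smul_smul, mul_div_cancel₀ _ h6.ne', mul_div_cancel₀ _ h6.ne']
    abel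
  refine convexHull_min ?_ hQ h7
  intro x hx
  simp only [Set.mem_insert_iff, Set.mem_singleton_iff] at hx
  rcases hx with rfl | rfl | rfl
  · exact hP
  · exact hA
  · exact hB

/-- the area of a convex set which contains four points -/
lemma quad {Q : Set (ℝ × ℝ)} (hQ : Convex ℝ Q) {P₁ P₂ Q₁ Q₂ : ℝ × ℝ} (hP₁ : P₁ ∈ Q) (hP₂ : P₂ ∈ Q)
    (hQ₁ : Q₁ ∈ Q) (hQ₂ : Q₂ ∈ Q) :
    ENNReal.ofReal (|(P₁ - P₂).1 * (Q₁ - Q₂).2 - (P₁ - P₂).2 * (Q₁ - Q₂).1| / 2) ≤ volume Q := by
  set c : ℝ × ℝ → ℝ := fun X => (P₁ - P₂).1 * (X - P₂).2 - (P₁ - P₂).2 * (X - P₂).1 with hc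
  have h1 : (P₁ - P₂).1 * (Q₁ - Q₂).2 - (P₁ - P₂).2 * (Q₁ - Q₂).1 = c Q₁ - c Q₂ := by
    simp only [hc, Prod.fst_sub, Prod.snd_sub]; ring
  have ht : ∀ X ∈ Q, ENNReal.ofReal (|c X| / 2) ≤ volume Q := by
    intro X hX
    rw [← vol_tri P₂ (P₁ - P₂) (X - P₂)]
    exact measure_mono (tri_sub hQ hP₂ hP₁ hX)
  rw [h1]
  by_cases hs : 0 ≤ c Q₁ * c Q₂
  · have h2 : |c Q₁ - c Q₂| ≤ |c Q₁| ∨ |c Q₁ - c Q₂| ≤ |c Q₂| := by
      rcases le_total 0 (c Q₁) with h3 | h3 <;> rcases le_total 0 (c Q₂) with h4 | h4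
      · rcases le_total (c Q₁) (c Q₂) with h5 | h5
        · right; rw [abs_of_nonpos (by linarith), abs_of_nonneg h4]; linarith
        · left; rw [abs_of_nonneg (by linarith), abs_of_nonneg h3]; linarith
      · have h5 : c Q₁ = 0 ∨ c Q₂ = 0 := by
          have : c Q₁ * c Q₂ = 0 := le_antisymm (mul_nonpos_of_nonneg_of_nonpos h3 h4) hs
          exact mul_eq_zero.1 this
        rcases h5 with h5 | h5 <;> simp [h5]
      · have h5 : c Q₁ = 0 ∨ c Q₂ = 0 := by
          have : c Q₁ * c Q₂ = 0 := le_antisymm (mul_nonpos_of_nonpos_of_nonneg h3 h4) hs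
          exact mul_eq_zero.1 this
        rcases h5 with h5 | h5 <;> simp [h5]
      · rcases le_total (c Q₁) (c Q₂) with h5 | h5
        · left; rw [abs_of_nonpos (by linarith), abs_of_nonpos h3]; linarith
        · right; rw [abs_of_nonneg (by linarith), abs_of_nonpos h4]; linarith
    rcases h2 with h2 | h2
    · exact (ENNReal.ofReal_le_ofReal (by linarith)).trans (ht Q₁ hQ₁)
    · exact (ENNReal.ofReal_le_ofReal (by linarith)).trans (ht Q₂ hQ₂)
  · push Not at hs
    -- opposite sides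
    have key : ∀ X Y : ℝ × ℝ, X ∈ Q → Y ∈ Q → 0 < c X → c Y < 0 →
        ENNReal.ofReal (|c X - c Y| / 2) ≤ volume Q := by
      intro X Y hX hY h3 h4
      have hmeas : MeasurableSet {Z : ℝ × ℝ | 0 < c Z} := by
        apply measurableSet_lt measurable_const
        apply Continuous.measurable
        simp only [hc, Prod.fst_sub, Prod.snd_sub]
        fun_prop
      have h5 := measure_inter_add_sdiff (μ := (volume : Measure (ℝ × ℝ))) Q hmeas
      have hcl : ∀ Z p, c (P₂ + lin (P₁ - P₂) (Z - P₂) p) = p.2 * c Z := by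
        intro Z p
        simp only [hc, lin, Prod.fst_sub, Prod.snd_sub, Prod.fst_add, Prod.snd_add,
          LinearMap.add_apply, LinearMap.smulRight_apply, LinearMap.fst_apply, LinearMap.snd_apply,
          Prod.smul_fst, Prod.smul_snd, smul_eq_mul]
        ring
      have h6 : volume ((fun p : ℝ × ℝ => P₂ + lin (P₁ - P₂) (X - P₂) p) '' T) ≤
          volume (Q ∩ {Z | 0 < c Z}) := by
        apply measure_mono
        intro Z hZ
        refine ⟨tri_sub hQ hP₂ hP₁ hX hZ, ?_⟩
        obtain ⟨p, hp, rfl⟩ := hZ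
        obtain ⟨_, h7, _⟩ := hp
        show 0 < c _
        rw [hcl]
        exact mul_pos h7 h3
      have h8 : volume ((fun p : ℝ × ℝ => P₂ + lin (P₁ - P₂) (Y - P₂) p) '' T) ≤
          volume (Q \ {Z | 0 < c Z}) := by
        apply measure_mono
        intro Z hZ
        refine ⟨tri_sub hQ hP₂ hP₁ hY hZ, ?_⟩
        obtain ⟨p, hp, rfl⟩ := hZ
        obtain ⟨_, h7, _⟩ := hp
        show ¬ (0 < c _)
        rw [hcl]
        exact not_lt.2 (mul_nonpos_of_nonneg_of_nonpos h7.le h4.le)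
      rw [vol_tri] at h6 h8
      rw [← h5]
      refine le_trans ?_ (add_le_add h6 h8)
      rw [← ENNReal.ofReal_add (by positivity) (by positivity)]
      apply ENNReal.ofReal_le_ofReal
      have e1 : |(P₁ - P₂).1 * (X - P₂).2 - (P₁ - P₂).2 * (X - P₂).1| = c X := abs_of_pos h3
      have e2 : |(P₁ - P₂).1 * (Y - P₂).2 - (P₁ - P₂).2 * (Y - P₂).1| = - c Y := abs_of_neg h4
      rw [e1, e2, abs_of_pos (by linarith)]
      linarith
    rcases lt_trichotomy (c Q₁) 0 with h2 | h2 | h2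
    · have h3 : 0 < c Q₂ := by
        by_contra h3
        push Not at h3
        linarith [mul_nonneg_of_nonpos_of_nonpos h2.le h3]
      have := key Q₂ Q₁ hQ₂ hQ₁ h3 h2
      rwa [abs_sub_comm] at this
    · rw [h2, zero_mul] at hs
      exact absurd hs (lt_irrefl _)
    · have h3 : c Q₂ < 0 := by
        by_contra h3
        push Not at h3
        linarith [mul_nonneg h2.le h3]
      exact key Q₁ Q₂ hQ₁ hQ₂ h2 h3

/-! ### the body -/

/-- the tetrahedron with vertices `(0, ±1/2, 0)` and `(±1/2, 0, 20)` -/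
def K : Set (Fin 3 → ℝ) := {x | 0 ≤ x 2 ∧ x 2 ≤ 20 ∧ |x 0| ≤ x 2 / 40 ∧ |x 1| ≤ (20 - x 2) / 40}

/-- the hexagon `|x| ≤ 221/625`, `|x| + |y| ≤ 1/2` -/
def D : Set (ℝ × ℝ) := {p | |p.1| ≤ 221 / 625 ∧ |p.1| + |p.2| ≤ 1 / 2}

lemma K_convex : Convex ℝ K := by
  intro x hx y hy a b ha hb hab
  obtain ⟨h1, h2, h3, h4⟩ := hx
  obtain ⟨k1, k2, k3, k4⟩ := hy
  rw [abs_le] at h3 h4 k3 k4
  have hb' : b = 1 - a := by linarith
  subst hb'
  refine ⟨?_, ?_, ?_, ?_⟩
  · simp only [Pi.add_apply, Pi.smul_apply, smul_eq_mul]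
    have := mul_nonneg ha h1
    have := mul_nonneg hb k1
    linarith
  · simp only [Pi.add_apply, Pi.smul_apply, smul_eq_mul]
    have := mul_le_mul_of_nonneg_left h2 ha
    have := mul_le_mul_of_nonneg_left k2 hb
    linarith
  · simp only [Pi.add_apply, Pi.smul_apply, smul_eq_mul]
    have e1 := mul_le_mul_of_nonneg_left h3.1 ha
    have e2 := mul_le_mul_of_nonneg_left k3.1 hb
    have e3 := mul_le_mul_of_nonneg_left h3.2 ha
    have e4 := mul_le_mul_of_nonneg_left k3.2 hb
    rw [abs_le]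
    constructor <;> linarith
  · simp only [Pi.add_apply, Pi.smul_apply, smul_eq_mul]
    have e1 := mul_le_mul_of_nonneg_left h4.1 ha
    have e2 := mul_le_mul_of_nonneg_left k4.1 hb
    have e3 := mul_le_mul_of_nonneg_left h4.2 ha
    have e4 := mul_le_mul_of_nonneg_left k4.2 hb
    rw [abs_le]
    constructor <;> linarith

lemma K_body : IsBody K := by
  refine ⟨?_, K_convex, ?_⟩
  · have hcl : IsClosed K := by
      apply IsClosed.and (isClosed_le (by fun_prop) (by fun_prop))
      apply IsClosed.and (isClosed_le (by fun_prop) (by fun_prop))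
      apply IsClosed.and (isClosed_le (by fun_prop) (by fun_prop))
      exact isClosed_le (by fun_prop) (by fun_prop)
    refine (isCompact_Icc (a := (fun _ => -20 : Fin 3 → ℝ)) (b := fun _ => 20)).of_isClosed_subset
      hcl ?_
    intro x hx
    obtain ⟨h1, h2, h3, h4⟩ := hx
    rw [abs_le] at h3 h4
    constructor
    · intro i
      fin_cases i
      · show (-20 : ℝ) ≤ x 0; linarith
      · show (-20 : ℝ) ≤ x 1; linarith
      · show (-20 : ℝ) ≤ x 2; linarith
    · intro i
      fin_cases i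
      · show x 0 ≤ (20 : ℝ); linarith
      · show x 1 ≤ (20 : ℝ); linarith
      · show x 2 ≤ (20 : ℝ); linarith
  · refine ⟨![0, 0, 10], ?_⟩
    rw [mem_interior]
    refine ⟨{x | 0 < x 2 ∧ x 2 < 20 ∧ |x 0| < x 2 / 40 ∧ |x 1| < (20 - x 2) / 40}, ?_, ?_, ?_⟩
    · intro x hx
      exact ⟨hx.1.le, hx.2.1.le, hx.2.2.1.le, hx.2.2.2.le⟩
    · apply IsOpen.and (isOpen_lt (by fun_prop) (by fun_prop))
      apply IsOpen.and (isOpen_lt (by fun_prop) (by fun_prop))
      apply IsOpen.and (isOpen_lt (by fun_prop) (by fun_prop))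
      exact isOpen_lt (by fun_prop) (by fun_prop)
    · simp
      norm_num

lemma D_door : IsDoor D := by
  refine ⟨?_, ?_, ?_⟩
  · have hcl : IsClosed D := by
      apply IsClosed.and (isClosed_le (by fun_prop) (by fun_prop))
      exact isClosed_le (by fun_prop) (by fun_prop)
    refine (isCompact_Icc (a := ((-1, -1) : ℝ × ℝ)) (b := (1, 1))).of_isClosed_subset hcl ?_
    intro x hx
    obtain ⟨h1, h2⟩ := hx
    have h3 : |x.1| ≤ 1 / 2 := by linarith [abs_nonneg x.2]
    have h4 : |x.2| ≤ 1 / 2 := by linarith [abs_nonneg x.1]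
    rw [abs_le] at h3 h4
    exact ⟨⟨by show -1 ≤ x.1; linarith, by show -1 ≤ x.2; linarith⟩,
      ⟨by show x.1 ≤ 1; linarith, by show x.2 ≤ 1; linarith⟩⟩
  · intro x hx y hy a b ha hb hab
    obtain ⟨h1, h2⟩ := hx
    obtain ⟨k1, k2⟩ := hy
    have e1 : |(a • x + b • y).1| ≤ a * |x.1| + b * |y.1| := by
      simp only [Prod.fst_add, Prod.smul_fst, smul_eq_mul]
      refine (abs_add_le _ _).trans ?_
      rw [abs_mul, abs_mul, abs_of_nonneg ha, abs_of_nonneg hb]
    have e2 : |(a • x + b • y).2| ≤ a * |x.2| + b * |y.2| := by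
      simp only [Prod.snd_add, Prod.smul_snd, smul_eq_mul]
      refine (abs_add_le _ _).trans ?_
      rw [abs_mul, abs_mul, abs_of_nonneg ha, abs_of_nonneg hb]
    have hb' : b = 1 - a := by linarith
    subst hb'
    have e3 := mul_le_mul_of_nonneg_left h1 ha
    have e4 := mul_le_mul_of_nonneg_left k1 hb
    have e5 := mul_le_mul_of_nonneg_left h2 ha
    have e6 := mul_le_mul_of_nonneg_left k2 hb
    exact ⟨by linarith, by linarith⟩
  · refine ⟨(0, 0), ?_⟩
    rw [mem_interior]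
    refine ⟨{p | |p.1| < 221 / 625 ∧ |p.1| + |p.2| < 1 / 2}, ?_, ?_, ?_⟩
    · intro x hx
      exact ⟨hx.1.le, hx.2.le⟩
    · apply IsOpen.and (isOpen_lt (by fun_prop) (by fun_prop))
      exact isOpen_lt (by fun_prop) (by fun_prop)
    · simp

lemma vol_D : volume D ≤ ENNReal.ofReal (458 / 1000) := by
  have hsub : D ⊆ regionBetween (fun x => -(1 / 2 - |x|) - 1 / 10000)
      (fun x => (1 / 2 - |x|) + 1 / 10000) (Set.Icc (-(221 / 625)) (221 / 625)) := by
    intro p hp
    obtain ⟨h1, h2⟩ := hp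
    have h3 := abs_le.1 h1
    have h4 : |p.2| ≤ 1 / 2 - |p.1| := by linarith
    rw [abs_le] at h4
    exact ⟨⟨h3.1, h3.2⟩, by simp only [Set.mem_Ioo]; constructor <;> linarith⟩
  refine (measure_mono hsub).trans ?_
  have habs : ∫ x in (-(221 / 625) : ℝ)..(221 / 625), |x| = (221 / 625) ^ 2 := by
    rw [← intervalIntegral.integral_add_adjacent_intervals (b := 0)
      (continuous_abs.intervalIntegrable _ _) (continuous_abs.intervalIntegrable _ _)]
    have e1 : ∫ x in (-(221 / 625) : ℝ)..0, |x| = ∫ x in (-(221 / 625) : ℝ)..0, -x := by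
      apply intervalIntegral.integral_congr
      intro x hx
      rw [Set.uIcc_of_le (by norm_num)] at hx
      exact abs_of_nonpos hx.2
    have e2 : ∫ x in (0 : ℝ)..(221 / 625), |x| = ∫ x in (0 : ℝ)..(221 / 625), x := by
      apply intervalIntegral.integral_congr
      intro x hx
      rw [Set.uIcc_of_le (by norm_num)] at hx
      exact abs_of_nonneg hx.1
    rw [e1, e2, intervalIntegral.integral_neg, integral_id, integral_id]
    norm_num
  rw [Measure.volume_eq_prod, volume_regionBetween_eq_integral]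
  · apply ENNReal.ofReal_le_ofReal
    rw [integral_Icc_eq_integral_Ioc, ← intervalIntegral.integral_of_le (by norm_num)]
    have e : ∀ x : ℝ, ((fun x : ℝ => (1 / 2 - |x|) + 1 / 10000) -
        (fun x : ℝ => -(1 / 2 - |x|) - 1 / 10000)) x = (1 + 2 / 10000) - 2 * |x| := by
      intro x
      simp only [Pi.sub_apply]
      ring
    simp only [e]
    have i1 : IntervalIntegrable (fun _ : ℝ => (1 + 2 / 10000 : ℝ)) volume (-(221 / 625))
        (221 / 625) := intervalIntegrable_const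
    have i2 : IntervalIntegrable (fun x : ℝ => 2 * |x|) volume (-(221 / 625)) (221 / 625) :=
      (by fun_prop : Continuous fun x : ℝ => 2 * |x|).intervalIntegrable _ _
    rw [intervalIntegral.integral_sub i1 i2, intervalIntegral.integral_const_mul, habs,
      intervalIntegral.integral_const]
    norm_num
  · apply Continuous.integrableOn_Icc
    fun_prop
  · apply Continuous.integrableOn_Icc
    fun_prop
  · exact measurableSet_Icc
  · intro x hx
    have h3 := abs_le.2 ⟨hx.1, hx.2⟩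
    linarith

/-! ### the motion -/

/-- angle of the rotation at time `t` -/
noncomputable def ang (t : ℝ) : ℝ := (Real.pi / 2) * max 0 (min 1 (3 * t - 1))

/-- height of the translation at time `t` -/
noncomputable def hei (t : ℝ) : ℝ := -10 + 11 * (max (1 - 3 * t) 0 - max (3 * t - 2) 0)

/-- rotation about the vertical axis -/
noncomputable def rot (θ : ℝ) : Matrix (Fin 3) (Fin 3) ℝ :=
  !![Real.cos θ, -Real.sin θ, 0; Real.sin θ, Real.cos θ, 0; 0, 0, 1]

lemma rot_mem (θ : ℝ) : rot θ ∈ specialOrthogonalGroup (Fin 3) ℝ := by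
  rw [mem_specialOrthogonalGroup_iff]
  constructor
  · rw [mem_orthogonalGroup_iff]
    ext i j
    fin_cases i <;> fin_cases j <;>
      simp [rot, Matrix.mul_apply, Fin.sum_univ_three] <;>
      nlinarith [Real.sin_sq_add_cos_sq θ]
  · simp [rot, Matrix.det_fin_three]
    nlinarith [Real.sin_sq_add_cos_sq θ]

lemma move0 (θ z : ℝ) (x : Fin 3 → ℝ) :
    move (rot θ) ![0, 0, z] x 0 = Real.cos θ * x 0 - Real.sin θ * x 1 := by
  simp [move, rot, Matrix.mulVec, dotProduct, Fin.sum_univ_three]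
  ring

lemma move1 (θ z : ℝ) (x : Fin 3 → ℝ) :
    move (rot θ) ![0, 0, z] x 1 = Real.sin θ * x 0 + Real.cos θ * x 1 := by
  simp [move, rot, Matrix.mulVec, dotProduct, Fin.sum_univ_three]

lemma move2 (θ z : ℝ) (x : Fin 3 → ℝ) : move (rot θ) ![0, 0, z] x 2 = x 2 + z := by
  simp [move, rot, Matrix.mulVec, dotProduct, Fin.sum_univ_three]

lemma pass : CanPass K D := by
  refine ⟨fun t => rot (ang t), fun t => ![0, 0, hei t], ?_, ?_, fun t => rot_mem _, ?_, ?_, ?_⟩
  · have h1 : Continuous ang := by unfold ang; fun_prop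
    refine continuous_matrix fun i j => ?_
    fin_cases i <;> fin_cases j <;> simp [rot] <;> fun_prop
  · have h1 : Continuous hei := by unfold hei; fun_prop
    refine continuous_pi fun i => ?_
    fin_cases i <;> simp <;> fun_prop
  · intro x hx
    show 0 < move (rot (ang 0)) ![0, 0, hei 0] x 2
    rw [move2]
    unfold hei
    have := hx.1
    norm_num
    linarith
  · intro x hx
    show move (rot (ang 1)) ![0, 0, hei 1] x 2 < 0
    rw [move2]
    unfold hei
    have := hx.2.1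
    norm_num
    linarith
  · intro t ht x hx h0
    obtain ⟨h1, h2, h3, h4⟩ := hx
    have h0' : x 2 + hei t = 0 := by rw [← move2 (ang t) (hei t) x]; exact h0
    show (move (rot (ang t)) ![0, 0, hei t] x 0, move (rot (ang t)) ![0, 0, hei t] x 1) ∈ D
    rw [move0, move1]
    rcases le_total (3 * t) 1 with a1 | a1
    · -- first part
      have e1 : ang t = 0 := by
        unfold ang
        rw [min_eq_right (by linarith), max_eq_left (by linarith), mul_zero]
      have e2 : -10 ≤ hei t := by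
        unfold hei
        rw [max_eq_left (by linarith), max_eq_right (b := (0 : ℝ)) (by linarith)]
        linarith
      rw [e1, Real.cos_zero, Real.sin_zero]
      simp only [one_mul, zero_mul, sub_zero, zero_add]
      exact ⟨by show |x 0| ≤ _; linarith, by show |x 0| + |x 1| ≤ _; linarith⟩
    rcases le_total (3 * t) 2 with a2 | a2
    · -- rotation
      have e2 : hei t = -10 := by
        unfold hei
        rw [max_eq_right (by linarith), max_eq_right (b := (0 : ℝ)) (by linarith)]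
        ring
      have e3 : x 2 = 10 := by linarith
      have b0 : |x 0| ≤ 1 / 4 := by rw [e3] at h3; linarith
      have b1 : |x 1| ≤ 1 / 4 := by rw [e3] at h4; linarith
      have s0 : (x 0) ^ 2 ≤ 1 / 16 := by
        rw [← sq_abs]; nlinarith [abs_nonneg (x 0)]
      have s1 : (x 1) ^ 2 ≤ 1 / 16 := by
        rw [← sq_abs]; nlinarith [abs_nonneg (x 1)]
      set X := Real.cos (ang t) * x 0 - Real.sin (ang t) * x 1 with hX
      set Y := Real.sin (ang t) * x 0 + Real.cos (ang t) * x 1 with hY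
      have hn : X ^ 2 + Y ^ 2 ≤ 1 / 8 := by
        have : X ^ 2 + Y ^ 2 = (Real.sin (ang t) ^ 2 + Real.cos (ang t) ^ 2) *
            ((x 0) ^ 2 + (x 1) ^ 2) := by rw [hX, hY]; ring
        rw [this, Real.sin_sq_add_cos_sq, one_mul]
        linarith
      rw [← sq_abs X, ← sq_abs Y] at hn
      constructor
      · show |X| ≤ _
        by_contra hcon
        push Not at hcon
        nlinarith [abs_nonneg X, sq_nonneg |Y|]
      · show |X| + |Y| ≤ _
        nlinarith [sq_nonneg (|X| - |Y|), abs_nonneg X, abs_nonneg Y]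
    · -- last part
      have e1 : ang t = Real.pi / 2 := by
        unfold ang
        rw [min_eq_left (by linarith), max_eq_right (by norm_num), mul_one]
      have e2 : hei t ≤ -10 := by
        unfold hei
        rw [max_eq_right (by linarith), max_eq_left (b := (0 : ℝ)) (by linarith)]
        linarith
      rw [e1, Real.cos_pi_div_two, Real.sin_pi_div_two]
      simp only [one_mul, zero_mul, zero_sub, add_zero]
      exact ⟨by show |-x 1| ≤ _; rw [abs_neg]; linarith,
        by show |-x 1| + |x 0| ≤ _; rw [abs_neg]; linarith⟩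

/-! ### the projections -/

lemma proj_convex (v w : Fin 3 → ℝ) : Convex ℝ (proj v w K) := by
  have h1 : IsLinearMap ℝ (fun x : Fin 3 → ℝ => (v ⬝ᵥ x, w ⬝ᵥ x)) := by
    constructor
    · intro x y
      simp [dotProduct_add]
    · intro c x
      simp [dotProduct_smul]
  exact K_convex.is_linear_image h1

lemma vertices : (![0, 1 / 2, 0] : Fin 3 → ℝ) ∈ K ∧ (![0, -1 / 2, 0] : Fin 3 → ℝ) ∈ K ∧
    (![1 / 2, 0, 20] : Fin 3 → ℝ) ∈ K ∧ (![-1 / 2, 0, 20] : Fin 3 → ℝ) ∈ K := by
  refine ⟨?_, ?_, ?_, ?_⟩ <;> simp [K, abs_le] <;> norm_num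

lemma proj_vol (v w : Fin 3 → ℝ) (hv : v ⬝ᵥ v = 1) (hw : w ⬝ᵥ w = 1) (hvw : v ⬝ᵥ w = 0) :
    ENNReal.ofReal (4993 / 10000) ≤ volume (proj v w K) := by
  obtain ⟨m1, m2, m3, m4⟩ := vertices
  have n1 : (v ⬝ᵥ ![0, 1 / 2, 0], w ⬝ᵥ ![0, 1 / 2, 0]) ∈ proj v w K := ⟨_, m1, rfl⟩
  have n2 : (v ⬝ᵥ ![0, -1 / 2, 0], w ⬝ᵥ ![0, -1 / 2, 0]) ∈ proj v w K := ⟨_, m2, rfl⟩
  have n3 : (v ⬝ᵥ ![1 / 2, 0, 20], w ⬝ᵥ ![1 / 2, 0, 20]) ∈ proj v w K := ⟨_, m3, rfl⟩
  have n4 : (v ⬝ᵥ ![-1 / 2, 0, 20], w ⬝ᵥ ![-1 / 2, 0, 20]) ∈ proj v w K := ⟨_, m4, rfl⟩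
  have q1 := quad (proj_convex v w) n1 n2 n3 n4
  have q2 := quad (proj_convex v w) n1 n3 n2 n4
  have q3 := quad (proj_convex v w) n1 n4 n2 n3
  simp only [dotProduct, Fin.sum_univ_three, Matrix.cons_val_zero, Matrix.cons_val_one,
    Matrix.cons_val, Prod.fst_sub, Prod.snd_sub] at q1 q2 q3 hv hw hvw
  set u0 : ℝ := v 1 * w 2 - v 2 * w 1 with hu0
  set u1 : ℝ := v 2 * w 0 - v 0 * w 2 with hu1
  set u2 : ℝ := v 0 * w 1 - v 1 * w 0 with hu2
  have hu : u0 ^ 2 + u1 ^ 2 + u2 ^ 2 = 1 := by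
    have : u0 ^ 2 + u1 ^ 2 + u2 ^ 2 = (v 0 * v 0 + v 1 * v 1 + v 2 * v 2) *
        (w 0 * w 0 + w 1 * w 1 + w 2 * w 2) - (v 0 * w 0 + v 1 * w 1 + v 2 * w 2) ^ 2 := by
      rw [hu0, hu1, hu2]; ring
    rw [this, hv, hw, hvw]; norm_num
  have r1 : ENNReal.ofReal (|u2| / 2) ≤ volume (proj v w K) := by
    refine le_trans (le_of_eq ?_) q1
    congr 2
    rw [← abs_neg]
    congr 1
    rw [hu2]; ring
  have r2 : ENNReal.ofReal (|20 * (u0 + u1)| / 2) ≤ volume (proj v w K) := by
    refine le_trans (le_of_eq ?_) q2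
    congr 2
    rw [← abs_neg]
    congr 1
    rw [hu0, hu1]; ring
  have r3 : ENNReal.ofReal (|20 * (u0 - u1)| / 2) ≤ volume (proj v w K) := by
    refine le_trans (le_of_eq ?_) q3
    congr 2
    rw [← abs_neg]
    congr 1
    rw [hu0, hu1]; ring
  by_cases h1 : 9986 / 10000 ≤ |u2|
  · exact (ENNReal.ofReal_le_ofReal (by linarith)).trans r1
  · push Not at h1
    have h2 : u2 ^ 2 < (9986 / 10000) ^ 2 := by
      rw [← sq_abs]
      exact pow_lt_pow_left₀ h1 (abs_nonneg _) (by norm_num)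
    by_cases h3 : 1 ≤ |20 * (u0 + u1)|
    · exact (ENNReal.ofReal_le_ofReal (by linarith)).trans r2
    · by_cases h4 : 1 ≤ |20 * (u0 - u1)|
      · exact (ENNReal.ofReal_le_ofReal (by linarith)).trans r3
      · push Not at h3 h4
        exfalso
        have h5 : (20 * (u0 + u1)) ^ 2 < 1 := by
          rw [← sq_abs]
          nlinarith [abs_nonneg (20 * (u0 + u1))]
        have h6 : (20 * (u0 - u1)) ^ 2 < 1 := by
          rw [← sq_abs]
          nlinarith [abs_nonneg (20 * (u0 - u1))]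
        nlinarith

/-- There is a convex body which can be moved through a door although the area of each of its plane
projections is more than `109/100` times the area of the door. -/
theorem result : ∃ (K : Set (Fin 3 → ℝ)) (D : Set (ℝ × ℝ)), IsBody K ∧ IsDoor D ∧ CanPass K D ∧
    ∀ v w : Fin 3 → ℝ, v ⬝ᵥ v = 1 → w ⬝ᵥ w = 1 → v ⬝ᵥ w = 0 →
      ENNReal.ofReal (109 / 100) * volume D < volume (proj v w K) := by
  refine ⟨K, D, K_body, D_door, pass, fun v w hv hw hvw => ?_⟩
  calc ENNReal.ofReal (109 / 100) * volume D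
      ≤ ENNReal.ofReal (109 / 100) * ENNReal.ofReal (458 / 1000) := by gcongr; exact vol_D
    _ = ENNReal.ofReal (109 / 100 * (458 / 1000)) := (ENNReal.ofReal_mul (by norm_num)).symm
    _ < ENNReal.ofReal (4993 / 10000) :=
        (ENNReal.ofReal_lt_ofReal_iff (by norm_num)).2 (by norm_num)
    _ ≤ volume (proj v w K) := proj_vol v w hv hw hvw

end Pool.Agent.Results.MP_d572aa_gt.TetrahedronThroughSmallDoor
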